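import Pool.Agent.Work.MP_c3bd4f_fq.Interface

/-!
# Block CAG: two lifts agree at time one
-/

set_option autoImplicit false

open scoped ContDiff Manifold Topology
open Set MeasureTheory

noncomputable section

namespace HDK

open HDC

theorem CAG_cont {M' M : Type} [TopologicalSpace M'] [TopologicalSpace M] {q : M' → M}
    {Φ : ℝ → M → M} {Ψ : ℝ → M' → M'} (h : Lif q Φ Ψ) : Continuous (Ψ 1) := by
  have h1 : Continuous fun e : M' => ((1 : ℝ), e) := by fun_prop
  exact h.ct.comp_continuous h1 fun e => ⟨⟨zero_le_one, le_refl _⟩, mem_univ _⟩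

theorem p_CAG (hCPR : Stmt_CPR) : Stmt_CAG := by
  intro N d M' M _ _ _ _ _ _ q K Φ Φ' Ψ Ψ' hC hNK hK hL hL' h1 hid
  funext e
  have hcl : IsClosed (connectedComponent e) := isClosed_connectedComponent
  have hex : ∃ e1 ∈ connectedComponent e, q e1 ∉ K := by
    by_contra hcon
    push Not at hcon
    exact hNK e ((hCPR N d M' M q hC K hK).of_isClosed_subset hcl hcon)
  obtain ⟨e1, he1, hq⟩ := hex
  obtain ⟨ha, hb⟩ := hid e1 hq
  have one : (1 : ℝ) ∈ Icc (0 : ℝ) 1 := ⟨zero_le_one, le_refl _⟩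
  have hcomp : (connectedComponent e).EqOn (q ∘ Ψ 1) (q ∘ Ψ' 1) := by
    intro x _
    show q (Ψ 1 x) = q (Ψ' 1 x)
    rw [hL.pr 1 one x, hL'.pr 1 one x, h1]
  exact hC.cov.eqOn_of_comp_eqOn isPreconnected_connectedComponent (CAG_cont hL).continuousOn
    (CAG_cont hL').continuousOn hcomp he1 (ha.trans hb.symm) mem_connectedComponent

end HDK
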