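import Pool.Agent.Work.MP_c3bd4f_fq.Interface

set_option autoImplicit false

/-! Block CCL: the Calabi invariant of `H ∘ q`. -/

open scoped ContDiff Manifold Topology
open Set MeasureTheory

noncomputable section

namespace HDK

open HDC

theorem p_CCL : Stmt_CCL := by
  intro N d M' M _ _ _ _ _ _ _ q vol vol' H hq hH hv
  have hmap : vol'.map q = (d : ENNReal) • vol := by
    ext B hB
    rw [Measure.map_apply hq.measurable hB, hv B hB, Measure.smul_apply, smul_eq_mul]
  have hcont : ∀ t ∈ Icc (0 : ℝ) 1, Continuous (H t) := by
    intro t ht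
    have h1 := hH.smooth.continuousOn
    have h2 : ContinuousOn ((fun q : ℝ × M => H q.1 q.2) ∘ (fun p : M => (t, p))) univ :=
      h1.comp (Continuous.continuousOn (by fun_prop)) (fun p _ => ⟨ht, mem_univ _⟩)
    exact continuousOn_univ.1 h2
  unfold Cal
  rw [← intervalIntegral.integral_const_mul]
  refine intervalIntegral.integral_congr fun t ht => ?_
  rw [uIcc_of_le zero_le_one] at ht
  change ∫ p, H t (q p) ∂vol' = d * ∫ p, H t p ∂vol
  rw [← integral_map hq.measurable.aemeasurable (hcont t ht).aestronglyMeasurable, hmap,
    integral_smul_measure, ENNReal.toReal_natCast, smul_eq_mul]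

end HDK
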