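import Pool.Agent.Work.MP_c3bd4f_fq.Interface

set_option autoImplicit false

open scoped ContDiff Manifold Topology
open Set MeasureTheory

noncomputable section

namespace HDK

open HDC

theorem p_CD1 (hOFK : Stmt_OFK) (hCHM : Stmt_CHM) (hCLF : Stmt_CLF) (hCIS : Stmt_CIS) (hCAG : Stmt_CAG)
    (hCV2 : Stmt_CV2) (hCCL : Stmt_CCL) : Stmt_CD1 := by
  intro n d M' M _ _ _ _ _ _ _ _ _ _ _ _ _ _ q Ω Ω' vol vol' hq hPB hNoK hsym hv hv' hdesc H H1 φ hH hH1 hg hg1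
  obtain ⟨Φ, hΦ, hΦ1⟩ := hg
  obtain ⟨Φ1, hΦ', hΦ1'⟩ := hg1
  obtain ⟨K, hK, hKs⟩ := hH.supp
  obtain ⟨K1, hK1, hK1s⟩ := hH1.supp
  have o1 := (hOFK n M Ω H Φ (K ∪ K1) ⟨hsym, hH, hΦ⟩ (hK.union hK1)
    (fun t ht p hp => hKs t ht p (fun h => hp (Or.inl h)))).1
  have o2 := (hOFK n M Ω H1 Φ1 (K ∪ K1) ⟨hsym, hH1, hΦ'⟩ (hK.union hK1)
    (fun t ht p hp => hK1s t ht p (fun h => hp (Or.inr h)))).1
  obtain ⟨Ψ, hΨ, hΨfix⟩ := hCLF M' M q Φ hq.cov hΦ.smooth.continuousOn hΦ.zero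
  obtain ⟨Ψ1, hΨ1, hΨ1fix⟩ := hCLF M' M q Φ1 hq.cov hΦ'.smooth.continuousOn hΦ'.zero
  have i1 := hCIS (2 * n) d M' M q Ω Ω' H Φ Ψ hq hPB hH hΦ hΨ
  have i2 := hCIS (2 * n) d M' M q Ω Ω' H1 Φ1 Ψ1 hq hPB hH1 hΦ' hΨ1
  have h01 : (1 : ℝ) ∈ Icc (0 : ℝ) 1 := ⟨zero_le_one, le_rfl⟩
  have heq : Ψ 1 = Ψ1 1 := hCAG (2 * n) d M' M q (K ∪ K1) Φ Φ1 Ψ Ψ1 hq hNoK (hK.union hK1) hΨ hΨ1
    (hΦ1.trans hΦ1'.symm)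
    (fun e he => ⟨hΨfix e (fun t ht => o1 t ht _ he) 1 h01, hΨ1fix e (fun t ht => o2 t ht _ he) 1 h01⟩)
  have hc := hdesc (fun t p => H t (q p)) (fun t p => H1 t (q p)) (Ψ 1)
    (hCHM (2 * n) d M' M q H hq hH) (hCHM (2 * n) d M' M q H1 hq hH1) ⟨Ψ, i1, rfl⟩ ⟨Ψ1, i2, heq.symm⟩
  have hvol := hCV2 n d M' M q Ω Ω' vol vol' hq hPB hv hv'
  have hqc : Continuous q := hq.cov.continuous
  rw [hCCL (2 * n) d M' M q vol vol' H hqc hH hvol, hCCL (2 * n) d M' M q vol vol' H1 hqc hH1 hvol] at hc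
  have hd : (d : ℝ) ≠ 0 := Nat.cast_ne_zero.2 (by have := hq.pos; omega)
  exact mul_left_cancel₀ hd hc

end HDK
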