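import Pool.Agent.Work.MP_c3bd4f_fq.Interface

/-! # Block CD2: the conclusion from the descent of the Calabi invariant (helper24) -/

set_option autoImplicit false

open scoped ContDiff Manifold Topology
open Set MeasureTheory

noncomputable section

namespace HDK

open HDC

theorem CD2_ctr_zero {N : ℕ} (w : Lam N) : ctr (0 : EE N) w = 0 := by
  simp [ctr]

theorem CD2_const {N : ℕ} {M : Type} [TopologicalSpace M] [ChartedSpace (EE N) M]
    (hK : CompactSpace M) (Ω : Fam N M) (a : ℝ) :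
    IsHam N (fun (_ : ℝ) (_ : M) => a) ∧ Generates Ω (fun (_ : ℝ) (_ : M) => a) id := by
  refine ⟨⟨contMDiffOn_const, univ, isCompact_univ, fun t _ p hp => absurd (mem_univ p) hp⟩,
    fun _ p => p, ⟨contMDiffOn_snd, fun p => rfl, ?_⟩, rfl⟩
  intro t _ p c _ _
  refine ⟨0, hasDerivWithinAt_const _ _ _, ?_⟩
  rw [CD2_ctr_zero]
  have h1 : fderiv ℝ (fun _ : EE N => a) (c p) = 0 := by simp
  rw [h1]
  simp

theorem p_CD2 (hVOL : Stmt_VOL) (hHOF : Stmt_HOF) (hEXH : Stmt_EXH) : Stmt_CD2 := by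
  intro n M _ _ _ _ _ _ _ _ Ω vol hΩ hvol hfin h1
  haveI : IsFiniteMeasure vol := ⟨hfin⟩
  have hV : 0 < (vol (univ : Set M)).toReal :=
    ENNReal.toReal_pos ((hVOL _ M Ω vol hΩ hvol).1 univ isOpen_univ univ_nonempty).ne'
      (measure_ne_top _ _)
  have hNCP : ∀ K : Set M, IsCompact K → ∃ p, p ∉ K := by
    intro K hK
    by_contra hcon
    push Not at hcon
    have hKu : K = univ := eq_univ_of_forall hcon
    have hcomp : CompactSpace M := ⟨hKu ▸ hK⟩
    obtain ⟨h1a, h1b⟩ := CD2_const (N := 2 * n) hcomp Ω 1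
    obtain ⟨h0a, h0b⟩ := CD2_const (N := 2 * n) hcomp Ω 0
    have e2 := h1 _ _ id h1a h0a h1b h0b
    have e3 : Cal vol (fun (_ : ℝ) (_ : M) => (1 : ℝ)) = (vol univ).toReal := by
      simp [Cal, Measure.real]
    have e4 : Cal vol (fun (_ : ℝ) (_ : M) => (0 : ℝ)) = 0 := by
      simp [Cal]
    rw [e3, e4] at e2
    exact hV.ne' e2
  have hbd : ∀ H : ℝ → M → ℝ, IsHam (2 * n) H → |Cal vol H| ≤ (vol univ).toReal * len H := by
    intro H hH
    obtain ⟨K, hK, hK0⟩ := hH.supp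
    obtain ⟨p, hp⟩ := hNCP K hK
    exact hHOF _ M vol H hH ⟨p, fun t ht => hK0 t ht p hp⟩
  have h2 : ∀ (H : ℝ → M → ℝ) (φ : M → M), IsHam (2 * n) H → Generates Ω H φ →
      |Cal vol H| ≤ (vol univ).toReal * hofer Ω φ := by
    intro H φ hH hG
    have h3 : |Cal vol H| / (vol univ).toReal ≤ hofer Ω φ := by
      unfold HDC.hofer
      refine le_csInf ⟨len H, H, hH, hG, rfl⟩ ?_
      rintro l ⟨H', hH', hG', rfl⟩
      rw [div_le_iff₀ hV, h1 H H' φ hH hH' hG hG', mul_comm]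
      exact hbd H' hH'
    rw [div_le_iff₀ hV, mul_comm] at h3
    exact h3
  refine ⟨h1, h2, ?_⟩
  intro C
  obtain ⟨H0, hpos, hgen⟩ := hEXH n M Ω vol hΩ hvol
  obtain ⟨hH, φ, hφ⟩ := hgen (C * (vol univ).toReal / ∫ p, H0 p ∂vol)
  refine ⟨φ, ⟨_, hH, hφ⟩, ?_⟩
  have h3 := h2 _ φ hH hφ
  have h4 : Cal vol (fun (_ : ℝ) p => (C * (vol univ).toReal / ∫ p, H0 p ∂vol) * H0 p) =
      C * (vol univ).toReal := by
    unfold Cal
    rw [intervalIntegral.integral_const, integral_const_mul, sub_zero, one_smul]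
    field_simp
  rw [h4] at h3
  have h5 : C * (vol univ).toReal ≤ (vol univ).toReal * hofer Ω φ := (le_abs_self _).trans h3
  rw [mul_comm] at h5
  exact le_of_mul_le_mul_left h5 hV

end HDK
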