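import Pool.Agent.Work.MP_c3bd4f_fq.Interface

/-! MP_c3bd4f_gt, finite quotients, block CDQ: the local expressions of the covering map. -/

set_option autoImplicit false

open scoped ContDiff Manifold Topology
open Set MeasureTheory

noncomputable section

namespace HDK

open HDC

theorem p_CDQ : Stmt_CDQ := by
  intro N d M' M _ _ _ _ _ _ q hq c hc c' hc'
  have hqc : Continuous q := hq.cov.continuous
  have hset : {x | x ∈ c.target ∧ q (c.symm x) ∈ c'.source} =
      c.symm.source ∩ c.symm ⁻¹' (q ⁻¹' c'.source) := by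
    ext x
    rfl
  refine ⟨?_, ?_⟩
  · rw [hset]
    exact c.symm.isOpen_inter_preimage (c'.open_source.preimage hqc)
  · have h1 : ContMDiffOn 𝓘(ℝ, EE N) 𝓘(ℝ, EE N) ∞ c.symm c.target :=
      contMDiffOn_symm_of_mem_maximalAtlas (IsManifold.subset_maximalAtlas hc)
    have h2 : ContMDiff 𝓘(ℝ, EE N) 𝓘(ℝ, EE N) ∞ q := hq.loc.contMDiff
    have h3 : ContMDiffOn 𝓘(ℝ, EE N) 𝓘(ℝ, EE N) ∞ c' c'.source :=
      contMDiffOn_of_mem_maximalAtlas (IsManifold.subset_maximalAtlas hc')
    rw [← contMDiffOn_iff_contDiffOn]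
    exact h3.comp (h2.comp_contMDiffOn (h1.mono fun x hx => hx.1)) fun x hx => hx.2

end HDK
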