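import Pool.Agent.Work.MP_c3bd4f_fq.Interface

set_option autoImplicit false

open scoped ContDiff Manifold Topology
open Set MeasureTheory

noncomputable section

namespace HDK

open HDC

theorem p_CHM (hCPR : Stmt_CPR) : Stmt_CHM := by
  intro N d M' M _ _ _ _ _ _ q H hq hH
  obtain ⟨K, hK, hKs⟩ := hH.supp
  refine ⟨?_, q ⁻¹' K, hCPR N d M' M q hq K hK, fun t ht p hp => hKs t ht (q p) hp⟩
  have h1 : ContMDiff (𝓘(ℝ, ℝ).prod 𝓘(ℝ, EE N)) (𝓘(ℝ, ℝ).prod 𝓘(ℝ, EE N)) ∞ (fun p : ℝ × M' => (p.1, q p.2)) :=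
    contMDiff_fst.prodMk (hq.loc.contMDiff.comp contMDiff_snd)
  exact hH.smooth.comp h1.contMDiffOn (fun p hp => ⟨hp.1, mem_univ _⟩)

end HDK
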