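import Pool.Agent.Work.MP_c3bd4f_fq.Interface

set_option autoImplicit false

open scoped ContDiff Manifold Topology
open Set MeasureTheory

noncomputable section

namespace HDK

open HDC

theorem CIS_slice {N : ℕ} {M : Type} [TopologicalSpace M] [ChartedSpace (EE N) M] [IsManifold 𝓘(ℝ, EE N) ∞ M]
    {H : ℝ → M → ℝ} (hH : IsHam N H) {t : ℝ} (ht : t ∈ Icc (0 : ℝ) 1) {c' : OpenPartialHomeomorph M (EE N)}
    (hc' : c' ∈ atlas (EE N) M) {y : EE N} (hy : y ∈ c'.target) :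
    DifferentiableAt ℝ (fun z => H t (c'.symm z)) y := by
  have h1 : ContMDiffOn 𝓘(ℝ, EE N) (𝓘(ℝ, ℝ).prod 𝓘(ℝ, EE N)) ∞ (fun z : EE N => ((t, c'.symm z) : ℝ × M)) c'.target :=
    contMDiffOn_const.prodMk (contMDiffOn_symm_of_mem_maximalAtlas (IsManifold.subset_maximalAtlas hc'))
  have h2 : ContMDiffOn 𝓘(ℝ, EE N) 𝓘(ℝ, ℝ) ∞ (fun z : EE N => H t (c'.symm z)) c'.target :=
    hH.smooth.comp h1 (fun z _ => ⟨ht, mem_univ _⟩)
  have h3 := contMDiffOn_iff_contDiffOn.mp h2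
  exact (h3.contDiffAt (c'.open_target.mem_nhds hy)).differentiableAt (by simp)

theorem p_CIS (hPBA : Stmt_PBA) (hCDQ : Stmt_CDQ) (hCSM : Stmt_CSM) : Stmt_CIS := by
  intro N d M' M _ _ _ _ _ _ q Ω Ω' H Φ Ψ hq hpb hH hI hL
  have hΨ : SmI N Ψ := hCSM N d M' M q Φ Ψ hq hI.smooth hL
  refine ⟨hΨ, hL.zero, ?_⟩
  intro t ht e c hc hec
  obtain ⟨P1, -, -, P4, -⟩ := hPBA N
  have hx : c (Ψ t e) ∈ c.target := c.map_source hec
  have hcx : c.symm (c (Ψ t e)) = Ψ t e := c.left_inv hec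
  have hqe : q (Ψ t e) = Φ t (q e) := hL.pr t ht e
  obtain ⟨c', hc', hcs'⟩ : ∃ c' ∈ atlas (EE N) M, q (Ψ t e) ∈ c'.source :=
    ⟨chartAt (EE N) (q (Ψ t e)), chart_mem_atlas _ _, mem_chart_source _ _⟩
  obtain ⟨hO, hS⟩ := hCDQ N d M' M q hq c hc c' hc'
  have hxO : c (Ψ t e) ∈ {x | x ∈ c.target ∧ q (c.symm x) ∈ c'.source} := ⟨hx, by rw [hcx]; exact hcs'⟩
  have hT : DifferentiableAt ℝ (fun y => c' (q (c.symm y))) (c (Ψ t e)) :=
    (hS.contDiffAt (hO.mem_nhds hxO)).differentiableAt (by simp)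
  have hTA := hT.hasFDerivAt
  -- the curve
  have hcur : ContMDiffOn 𝓘(ℝ, ℝ) 𝓘(ℝ, EE N) ∞ (fun s : ℝ => Ψ s e) (Icc 0 1) := by
    have h1 : ContMDiffOn 𝓘(ℝ, ℝ) (𝓘(ℝ, ℝ).prod 𝓘(ℝ, EE N)) ∞ (fun s : ℝ => ((s, e) : ℝ × M')) (Icc 0 1) :=
      contMDiffOn_id.prodMk contMDiffOn_const
    exact hΨ.comp h1 (fun s hs => ⟨hs, mem_univ _⟩)
  have hγ : DifferentiableWithinAt ℝ (fun s => c (Ψ s e)) (Icc 0 1) t := by
    have h1 : ContMDiffWithinAt 𝓘(ℝ, ℝ) 𝓘(ℝ, EE N) ∞ (fun s => c (Ψ s e)) (Icc 0 1) t := by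
      have h2 : ContMDiffAt 𝓘(ℝ, EE N) 𝓘(ℝ, EE N) ∞ c (Ψ t e) :=
        contMDiffAt_of_mem_maximalAtlas (IsManifold.subset_maximalAtlas hc) hec
      exact h2.comp_contMDiffWithinAt t (hcur t ht)
    exact (contMDiffWithinAt_iff_contDiffWithinAt.mp h1).differentiableWithinAt (by simp)
  have hv := hγ.hasDerivWithinAt
  refine ⟨_, hv, ?_⟩
  set v := derivWithin (fun s => c (Ψ s e)) (Icc 0 1) t with hvdef
  obtain ⟨v', hv', hode⟩ := hI.ode t ht (q e) c' hc' (by rw [← hqe]; exact hcs')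
  have hev : ∀ᶠ s in 𝓝[Icc 0 1] t, c' (Φ s (q e)) = c' (q (c.symm (c (Ψ s e)))) := by
    have h1 : ContinuousWithinAt (fun s : ℝ => Ψ s e) (Icc 0 1) t := (hcur t ht).continuousWithinAt
    have h2 := h1.preimage_mem_nhdsWithin (c.open_source.mem_nhds hec)
    filter_upwards [h2, self_mem_nhdsWithin] with s hs hs1
    rw [c.left_inv hs, hL.pr s hs1 e]
  have hcomp : HasDerivWithinAt (fun s => c' (q (c.symm (c (Ψ s e)))))
      ((fderiv ℝ (fun y => c' (q (c.symm y))) (c (Ψ t e))) v) (Icc 0 1) t :=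
    HasFDerivAt.comp_hasDerivWithinAt (l := fun y => c' (q (c.symm y))) (f := fun s => c (Ψ s e)) t hTA hv
  have hcomp2 : HasDerivWithinAt (fun s => c' (Φ s (q e)))
      ((fderiv ℝ (fun y => c' (q (c.symm y))) (c (Ψ t e))) v) (Icc 0 1) t :=
    hcomp.congr_of_eventuallyEq hev (by rw [hcx, hqe])
  have hAv : (fderiv ℝ (fun y => c' (q (c.symm y))) (c (Ψ t e))) v = v' :=
    (uniqueDiffOn_Icc_zero_one t ht).eq_deriv _ hcomp2 hv'
  have hpt : c' (q (c.symm (c (Ψ t e)))) = c' (Φ t (q e)) := by rw [hcx, hqe]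
  have hy0 : c' (Φ t (q e)) ∈ c'.target := c'.map_source (by rw [← hqe]; exact hcs')
  rw [hpb c hc c' hc' _ hx (by rw [hcx]; exact hcs'), ← P4, hAv, hpt, hode, P1]
  congr 1
  have hd := (CIS_slice hH ht hc' hy0).hasFDerivAt
  rw [← hpt] at hd
  have hch := hd.comp (c (Ψ t e)) hTA
  have hch2 : HasFDerivAt (fun y => H t (q (c.symm y)))
      ((fderiv ℝ (fun z => H t (c'.symm z)) (c' (q (c.symm (c (Ψ t e)))))).comp
        (fderiv ℝ (fun y => c' (q (c.symm y))) (c (Ψ t e)))) (c (Ψ t e)) := by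
    refine hch.congr_of_eventuallyEq ?_
    filter_upwards [hO.mem_nhds hxO] with y hy
    simp only [Function.comp_apply]
    rw [c'.left_inv hy.2]
  rw [hch2.fderiv, hpt]
  rfl

end HDK
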