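import Pool.Agent.Work.MP_c3bd4f_fq.Interface

set_option autoImplicit false

open scoped ContDiff Manifold Topology
open Set MeasureTheory

noncomputable section

namespace HDK

open HDC

theorem CPR_loc {M' M : Type} [TopologicalSpace M'] [TopologicalSpace M] {q : M' → M} {x : M} (hq : IsEvenlyCovered q x (q ⁻¹' {x}))
    (hfin : (q ⁻¹' {x}).Finite) : ∃ U : Set M, x ∈ U ∧ IsOpen U ∧ ∀ C ⊆ U, IsCompact C → IsCompact (q ⁻¹' C) := by
  obtain ⟨_, U, hxU, hU, _, H, hH⟩ := hq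
  haveI : Finite (q ⁻¹' {x}) := hfin
  refine ⟨U, hxU, hU, fun C hCU hC => ?_⟩
  have h1 : IsCompact ((Subtype.val ⁻¹' C : Set U)) := by
    rw [Subtype.isCompact_iff, Subtype.image_preimage_coe]
    rwa [inter_eq_right.2 hCU]
  have h2 : IsCompact ((Subtype.val ⁻¹' C : Set U) ×ˢ (univ : Set (q ⁻¹' {x}))) := h1.prod isCompact_univ
  have h3 : IsCompact ((fun p : U × (q ⁻¹' {x}) => ((H.symm p : q ⁻¹' U) : M')) ''
      ((Subtype.val ⁻¹' C : Set U) ×ˢ (univ : Set (q ⁻¹' {x})))) :=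
    h2.image (continuous_subtype_val.comp H.symm.continuous)
  convert h3 using 1
  ext e
  constructor
  · intro he
    have heU : e ∈ q ⁻¹' U := hCU he
    refine ⟨H ⟨e, heU⟩, ⟨?_, mem_univ _⟩, ?_⟩
    · show (H ⟨e, heU⟩).1.1 ∈ C
      rw [hH]
      exact he
    · show ((H.symm (H ⟨e, heU⟩) : q ⁻¹' U) : M') = e
      rw [Homeomorph.symm_apply_apply]
  · rintro ⟨p, ⟨hp, _⟩, rfl⟩
    show q ((H.symm p : q ⁻¹' U) : M') ∈ C
    rw [← hH (H.symm p), Homeomorph.apply_symm_apply]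
    exact hp

theorem p_CPR : Stmt_CPR := by
  intro N d M' M _ _ _ _ _ _ q hq K hK
  haveI : LocallyCompactSpace M := ChartedSpace.locallyCompactSpace (EE N) M
  have hcont : Continuous q := hq.cov.continuous
  have hP : ∃ L : Set M', IsCompact L ∧ q ⁻¹' K ⊆ L := by
    refine hK.induction_on (p := fun s => ∃ L : Set M', IsCompact L ∧ q ⁻¹' s ⊆ L) ?_ ?_ ?_ ?_
    · exact ⟨∅, isCompact_empty, by simp⟩
    · rintro s t hst ⟨L, hL, h⟩
      exact ⟨L, hL, (preimage_mono hst).trans h⟩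
    · rintro s t ⟨L, hL, h⟩ ⟨L', hL', h'⟩
      exact ⟨L ∪ L', hL.union hL', by rw [preimage_union]; exact union_subset_union h h'⟩
    · intro x _
      have hfin : (q ⁻¹' {x}).Finite := Set.finite_of_ncard_pos (by rw [hq.card x]; exact hq.pos)
      obtain ⟨U, hxU, hU, hUC⟩ := CPR_loc (hq.cov x) hfin
      obtain ⟨C, hC, hxC, hCU⟩ := exists_compact_subset hU hxU
      exact ⟨C, mem_nhdsWithin_of_mem_nhds (mem_interior_iff_mem_nhds.1 hxC), q ⁻¹' C, hUC C hCU hC, subset_rfl⟩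
  obtain ⟨L, hL, h⟩ := hP
  exact hL.of_isClosed_subset (hK.isClosed.preimage hcont) h

end HDK
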