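import Pool.Agent.Work.MP_c3bd4f_fq.Interface
import Pool.Agent.Work.MP_c3bd4f_hd.B_EXV

/-! # Block CV1 -/

set_option autoImplicit false
set_option linter.unusedSectionVars false
set_option linter.unusedVariables false

open scoped ContDiff Manifold Topology ENNReal
open Set MeasureTheory

noncomputable section

namespace HDK

open HDC

theorem CV1_im {X Y : Type} [TopologicalSpace X] [TopologicalSpace Y]
    (h : OpenPartialHomeomorph X Y) {A : Set X} (hA : A ⊆ h.source) :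
    h '' A = h.target ∩ h.symm ⁻¹' A := by
  ext y
  constructor
  · rintro ⟨x, hx, rfl⟩
    refine ⟨h.map_source (hA hx), ?_⟩
    show h.symm (h x) ∈ A
    rw [h.left_inv (hA hx)]
    exact hx
  · rintro ⟨hy, hyA⟩
    exact ⟨h.symm y, hyA, h.right_inv hy⟩

theorem CV1_back {X Y : Type} [TopologicalSpace X] [TopologicalSpace Y]
    (c : OpenPartialHomeomorph X Y) {A : Set X} (hA : A ⊆ c.source) :
    A = c.symm '' (c.target ∩ c.symm ⁻¹' A) := by
  ext p
  constructor
  · intro hp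
    refine ⟨c p, ⟨c.map_source (hA hp), ?_⟩, c.left_inv (hA hp)⟩
    show c.symm (c p) ∈ A
    rw [c.left_inv (hA hp)]
    exact hp
  · rintro ⟨x, ⟨hx, hx2⟩, rfl⟩
    exact hx2

theorem CV1_compat (hDET : Stmt_DET) {n : ℕ} {M' M : Type} [TopologicalSpace M']
    [ChartedSpace (EE (2 * n)) M'] [TopologicalSpace M] [ChartedSpace (EE (2 * n)) M]
    (q : M' → M) (Ω : Fam (2 * n) M) (Ω' : Fam (2 * n) M') (hPB : IsPB q Ω Ω')
    (c : OpenPartialHomeomorph M' (EE (2 * n))) (hc : c ∈ atlas (EE (2 * n)) M')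
    (c' : OpenPartialHomeomorph M (EE (2 * n))) (hc' : c' ∈ atlas (EE (2 * n)) M)
    (x : EE (2 * n)) (hx : x ∈ c.target) (hx' : q (c.symm x) ∈ c'.source) :
    ENNReal.ofReal |(fderiv ℝ (fun y => c' (q (c.symm y))) x).det| *
      EXV_rho n Ω c' (c' (q (c.symm x))) = EXV_rho n Ω' c x := by
  have h1 := hPB c hc c' hc' x hx hx'
  unfold EXV_rho
  rw [h1, ← map_pow, hDET, abs_mul, ENNReal.ofReal_mul (abs_nonneg _)]

theorem p_CV1 (hDET : Stmt_DET) (hCDQ : Stmt_CDQ) : Stmt_CV1 := by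
  intro n d M' M _ _ _ _ _ _ _ _ _ _ q Ω Ω' vol vol' hq hPB hvol hvol' e
  obtain ⟨h, heh, hqh⟩ := hq.cov.isLocalHomeomorph e
  have hqc : Continuous q := hq.cov.continuous
  obtain ⟨c, hcdef⟩ : ∃ c, c = chartAt (EE (2 * n)) e := ⟨_, rfl⟩
  obtain ⟨c', hcdef'⟩ : ∃ c', c' = chartAt (EE (2 * n)) (q e) := ⟨_, rfl⟩
  have hc : c ∈ atlas (EE (2 * n)) M' := by rw [hcdef]; exact chart_mem_atlas _ _
  have hc' : c' ∈ atlas (EE (2 * n)) M := by rw [hcdef']; exact chart_mem_atlas _ _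
  have hec : e ∈ c.source := by rw [hcdef]; exact mem_chart_source _ _
  have hec' : q e ∈ c'.source := by rw [hcdef']; exact mem_chart_source _ _
  refine ⟨h.source ∩ (c.source ∩ q ⁻¹' c'.source),
    h.open_source.inter (c.open_source.inter (c'.open_source.preimage hqc)),
    ⟨heh, hec, hec'⟩, ?_, ?_⟩
  · intro x hx y hy hxy
    rw [hqh] at hxy
    exact h.injOn hx.1 hy.1 hxy
  intro A hAW hA
  have hAh : A ⊆ h.source := fun x hx => (hAW hx).1
  have hAc : A ⊆ c.source := fun x hx => (hAW hx).2.1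
  have hAc' : ∀ x ∈ A, q x ∈ c'.source := fun x hx => (hAW hx).2.2
  have hqA : MeasurableSet (q '' A) := by
    rw [hqh, CV1_im h hAh]
    exact EXV_meas h.continuousOn_symm h.open_target.measurableSet hA
  have hqAc : q '' A ⊆ c'.source := by
    rintro _ ⟨x, hx, rfl⟩
    exact hAc' x hx
  have hS : MeasurableSet (c.target ∩ c.symm ⁻¹' A) :=
    EXV_meas c.continuousOn_symm c.open_target.measurableSet hA
  have hS2 : MeasurableSet (c'.target ∩ c'.symm ⁻¹' (q '' A)) :=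
    EXV_meas c'.continuousOn_symm c'.open_target.measurableSet hqA
  obtain ⟨hO, hsm⟩ := hCDQ (2 * n) d M' M q hq c hc c' hc'
  have h2 : c'.target ∩ c'.symm ⁻¹' (q '' A) =
      (fun y => c' (q (c.symm y))) '' (c.target ∩ c.symm ⁻¹' A) := by
    ext y
    constructor
    · rintro ⟨hy, ⟨x, hxA, hxy⟩⟩
      refine ⟨c x, ⟨c.map_source (hAc hxA), ?_⟩, ?_⟩
      · show c.symm (c x) ∈ A
        rw [c.left_inv (hAc hxA)]
        exact hxA
      · show c' (q (c.symm (c x))) = y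
        rw [c.left_inv (hAc hxA), hxy, c'.right_inv hy]
    · rintro ⟨x, ⟨hxc, hxA⟩, rfl⟩
      have hx3 : c.symm x ∈ A := hxA
      have hx4 := hAc' _ hx3
      refine ⟨c'.map_source hx4, ?_⟩
      show c'.symm (c' (q (c.symm x))) ∈ q '' A
      rw [c'.left_inv hx4]
      exact ⟨_, hx3, rfl⟩
  have h3 : ∀ x ∈ c.target ∩ c.symm ⁻¹' A,
      HasFDerivWithinAt (fun y => c' (q (c.symm y)))
        (fderiv ℝ (fun y => c' (q (c.symm y))) x) (c.target ∩ c.symm ⁻¹' A) x := by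
    intro x hx
    have hx1 : x ∈ {x | x ∈ c.target ∧ q (c.symm x) ∈ c'.source} := ⟨hx.1, hAc' _ hx.2⟩
    have h4 : ContDiffAt ℝ ∞ (fun y => c' (q (c.symm y))) x :=
      (hsm x hx1).contDiffAt (hO.mem_nhds hx1)
    exact (h4.differentiableAt (by simp)).hasFDerivAt.hasFDerivWithinAt
  have h5 : InjOn (fun y => c' (q (c.symm y))) (c.target ∩ c.symm ⁻¹' A) := by
    intro x hx x' hx' hxx
    have h6 : q (c.symm x) = q (c.symm x') :=
      c'.injOn (hAc' _ hx.2) (hAc' _ hx'.2) hxx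
    rw [hqh] at h6
    have h7 : c.symm x = c.symm x' := h.injOn (hAh hx.2) (hAh hx'.2) h6
    exact c.symm.injOn (by rw [c.symm_source]; exact hx.1)
      (by rw [c.symm_source]; exact hx'.1) h7
  have e1 : vol' A = ∫⁻ x in c.target ∩ c.symm ⁻¹' A, EXV_rho n Ω' c x := by
    conv_lhs => rw [CV1_back c hAc]
    exact hvol' c hc _ hS inter_subset_left
  have e2 : vol (q '' A) = ∫⁻ x in c'.target ∩ c'.symm ⁻¹' (q '' A), EXV_rho n Ω c' x := by
    conv_lhs => rw [CV1_back c' hqAc]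
    exact hvol c' hc' _ hS2 inter_subset_left
  rw [e1, e2, h2, lintegral_image_eq_lintegral_abs_det_fderiv_mul volume hS h3 h5]
  refine (setLIntegral_congr_fun hS ?_).symm
  intro x hx
  exact CV1_compat hDET q Ω Ω' hPB c hc c' hc' x hx.1 (hAc' _ hx.2)

end HDK
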