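import Pool.Agent.Work.MP_c3bd4f_fq.Interface

set_option autoImplicit false

/-! Block CV2: `q_* vol' = d vol`. -/

open scoped ContDiff Manifold Topology
open Set MeasureTheory

noncomputable section

namespace HDK

open HDC

/-- the general statement -/
theorem CV2_gen {X Y : Type} [TopologicalSpace X] [MeasurableSpace X] [BorelSpace X] [TopologicalSpace Y]
    [MeasurableSpace Y] [BorelSpace Y] (q : X → Y) (hq : Continuous q) (hop : IsOpenMap q) (vol : Measure Y)
    (vol' : Measure X) (W : ℕ → Set X) (hWo : ∀ k, IsOpen (W k)) (hinj : ∀ k, InjOn q (W k)) (hcov : ∀ e, ∃ k, e ∈ W k)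
    (hm : ∀ k, ∀ A ⊆ W k, MeasurableSet A → vol' A = vol (q '' A)) (d : ℕ) (hd : 1 ≤ d)
    (hcard : ∀ x, (q ⁻¹' {x}).ncard = d) (B : Set Y) (hB : MeasurableSet B) : vol' (q ⁻¹' B) = d * vol B := by
  classical
  set U : ℕ → Set X := fun k => ⋃ l ∈ {l : ℕ | l < k}, W l with hU
  have hUo : ∀ k, IsOpen (U k) := fun k => isOpen_biUnion fun l _ => hWo l
  set D : ℕ → Set X := fun k => W k \ U k with hD
  have hDm : ∀ k, MeasurableSet (D k) := fun k => (hWo k).measurableSet.diff (hUo k).measurableSet
  have hDW : ∀ k, D k ⊆ W k := fun k => diff_subset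
  set kk : X → ℕ := fun e => Nat.find (hcov e) with hkk
  have hk1 : ∀ e, e ∈ D (kk e) := by
    intro e
    refine ⟨Nat.find_spec (hcov e), fun h => ?_⟩
    rw [hU, mem_iUnion₂] at h
    obtain ⟨l, hl, hel⟩ := h
    exact Nat.find_min (hcov e) hl hel
  have hk2 : ∀ e k, e ∈ D k → k = kk e := by
    intro e k he
    refine le_antisymm ?_ (Nat.find_min' (hcov e) he.1)
    by_contra hlt
    push Not at hlt
    exact he.2 (mem_iUnion₂.2 ⟨kk e, hlt, (hk1 e).1⟩)
  have hqD : ∀ k, MeasurableSet (q '' (D k)) := by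
    intro k
    have h : q '' (D k) = q '' (W k) \ q '' (W k ∩ U k) := by
      ext y
      constructor
      · rintro ⟨e, he, rfl⟩
        refine ⟨⟨e, he.1, rfl⟩, ?_⟩
        rintro ⟨e', he', hee⟩
        have := hinj k he'.1 he.1 hee
        rw [this] at he'
        exact he.2 he'.2
      · rintro ⟨⟨e, he, rfl⟩, h2⟩
        exact ⟨e, ⟨he, fun hu => h2 ⟨e, ⟨he, hu⟩, rfl⟩⟩, rfl⟩
    rw [h]
    exact (hop _ (hWo k)).measurableSet.diff (hop _ ((hWo k).inter (hUo k))).measurableSet
  have e1 : q ⁻¹' B = ⋃ k, (q ⁻¹' B ∩ D k) := by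
    ext e
    rw [mem_iUnion]
    exact ⟨fun h => ⟨kk e, h, hk1 e⟩, fun ⟨k, hk⟩ => hk.1⟩
  have hqB : MeasurableSet (q ⁻¹' B) := hq.measurable hB
  rw [e1, measure_iUnion (fun i j hij => ?_) (fun k => hqB.inter (hDm k))]
  · have e2 : ∀ k, vol' (q ⁻¹' B ∩ D k) = ∫⁻ x in B, (q '' (D k)).indicator (fun _ => (1 : ENNReal)) x ∂vol := by
      intro k
      rw [hm k _ (inter_subset_right.trans (hDW k)) (hqB.inter (hDm k)), image_preimage_inter,
        lintegral_indicator (hqD k), lintegral_const, one_mul, Measure.restrict_apply_univ,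
        Measure.restrict_apply (hqD k), inter_comm]
    rw [tsum_congr e2, ← lintegral_tsum (fun k => (measurable_const.indicator (hqD k)).aemeasurable)]
    have e3 : ∀ x : Y, ∑' k, (q '' (D k)).indicator (fun _ => (1 : ENNReal)) x = d := by
      intro x
      have hfin : (q ⁻¹' {x}).Finite := Set.finite_of_ncard_pos (by rw [hcard]; omega)
      set F : Finset X := hfin.toFinset with hF
      have hFc : F.card = d := by
        rw [hF, ← Set.ncard_eq_toFinset_card _ hfin, hcard]
      have hinjF : Set.InjOn kk F := by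
        intro e he e' he' h
        have h1 : q e = x := by simpa [hF] using he
        have h2 : q e' = x := by simpa [hF] using he'
        have h3 := hDW _ (hk1 e)
        have h4 := hDW _ (hk1 e')
        rw [← h] at h4
        exact hinj _ h3 h4 (h1.trans h2.symm)
      rw [tsum_eq_sum (s := F.image kk) (fun k hk => ?_)]
      · rw [Finset.sum_congr rfl (g := fun _ => (1 : ENNReal)) (fun k hk => ?_)]
        · rw [Finset.sum_const, Finset.card_image_of_injOn hinjF, hFc, nsmul_eq_mul, mul_one]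
        · obtain ⟨e, he, rfl⟩ := Finset.mem_image.1 hk
          have h1 : q e = x := by simpa [hF] using he
          exact Set.indicator_of_mem (show x ∈ q '' (D (kk e)) from ⟨e, hk1 e, h1⟩) _
      · refine Set.indicator_of_notMem (fun hx => hk ?_) _
        obtain ⟨e, he, hex⟩ := hx
        refine Finset.mem_image.2 ⟨e, ?_, (hk2 e k he).symm⟩
        simpa [hF] using hex
    rw [lintegral_congr e3, lintegral_const, Measure.restrict_apply_univ]
  · refine Set.disjoint_left.2 fun e hi hj => hij ?_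
    rw [hk2 e i hi.2, hk2 e j hj.2]

theorem p_CV2 (hCV1 : Stmt_CV1) : Stmt_CV2 := by
  intro n d M' M _ _ _ _ _ _ _ _ _ _ _ q Ω Ω' vol vol' hc hpb hv hv' B hB
  choose W hWo hWe hWi hWm using hCV1 n d M' M q Ω Ω' vol vol' hc hpb hv hv'
  obtain ⟨s, hs, hsc⟩ := TopologicalSpace.countable_cover_nhds (fun e => (hWo e).mem_nhds (hWe e))
  rcases isEmpty_or_nonempty M' with hE | hE
  · have hM : B = ∅ := by
      rw [eq_empty_iff_forall_notMem]
      intro x _
      have h1 := hc.card x
      have h2 : q ⁻¹' {x} = ∅ := by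
        rw [eq_empty_iff_forall_notMem]
        exact fun e _ => hE.elim e
      rw [h2, ncard_empty] at h1
      have := hc.pos
      omega
    rw [hM, preimage_empty, measure_empty, measure_empty, mul_zero]
  · have hsn : s.Nonempty := by
      by_contra h
      rw [not_nonempty_iff_eq_empty] at h
      rw [h] at hsc
      obtain ⟨e⟩ := hE
      have : e ∈ (⋃ x ∈ (∅ : Set M'), W x) := by rw [hsc]; exact mem_univ e
      simp at this
    obtain ⟨f, hf⟩ := hs.exists_eq_range hsn
    refine CV2_gen q hc.cov.continuous hc.cov.isLocalHomeomorph.isOpenMap vol vol' (fun k => W (f k)) (fun k => hWo _)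
      (fun k => hWi _) (fun e => ?_) (fun k => hWm _) d hc.pos hc.card B hB
    have : e ∈ (⋃ x ∈ s, W x) := by rw [hsc]; exact mem_univ e
    obtain ⟨x, hx, hex⟩ := mem_iUnion₂.1 this
    rw [hf] at hx
    obtain ⟨k, rfl⟩ := hx
    exact ⟨k, hex⟩

end HDK
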