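import Pool.Agent.Work.MP_c3bd4f_fq.Interface

/-! # Block NK0: if the Calabi invariant descends then no component is compact (helper24) -/

set_option autoImplicit false

open scoped ContDiff Manifold Topology
open Set MeasureTheory

noncomputable section

namespace HDK

open HDC

/-- BLOCK NK0 (uses VOL). -/
def Stmt_NK0 : Prop := ∀ (n : ℕ) (M : Type) [TopologicalSpace M] [T2Space M] [SecondCountableTopology M]
  [ChartedSpace (EE (2 * n)) M] [IsManifold 𝓘(ℝ, EE (2 * n)) ∞ M] [MeasurableSpace M] [BorelSpace M] (Ω : Fam (2 * n) M) (vol : Measure M),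
  IsSymplectic n Ω → IsVol n Ω vol → vol univ < ⊤ →
  (∀ (H H' : ℝ → M → ℝ) (φ : M → M), IsHam (2 * n) H → IsHam (2 * n) H' → Generates Ω H φ → Generates Ω H' φ → Cal vol H = Cal vol H') →
  NoK M

theorem NK0_ctr_zero {N : ℕ} (w : Lam N) : ctr (0 : EE N) w = 0 := by
  simp [ctr]

theorem NK0_gen {N : ℕ} {M : Type} [TopologicalSpace M] [ChartedSpace (EE N) M]
    (Ω : Fam N M) (f : M → ℝ) (hf : IsLocallyConstant f) (hK : ∃ K : Set M, IsCompact K ∧ ∀ p ∉ K, f p = 0) :
    IsHam N (fun (_ : ℝ) (p : M) => f p) ∧ Generates Ω (fun (_ : ℝ) (p : M) => f p) id := by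
  have hsm : ContMDiff 𝓘(ℝ, EE N) 𝓘(ℝ, ℝ) ∞ f := by
    intro x
    have h1 : f =ᶠ[𝓝 x] fun _ => f x := hf.eventually_eq x
    exact contMDiffAt_const.congr_of_eventuallyEq h1
  obtain ⟨K, hK, hK0⟩ := hK
  refine ⟨⟨(hsm.comp contMDiff_snd).contMDiffOn, K, hK, fun t _ p hp => hK0 p hp⟩,
    fun _ p => p, ⟨contMDiffOn_snd, fun p => rfl, ?_⟩, rfl⟩
  intro t _ p c _ hpc
  refine ⟨0, hasDerivWithinAt_const _ _ _, ?_⟩
  rw [NK0_ctr_zero]
  have h1 : (fun y : EE N => f (c.symm y)) =ᶠ[𝓝 (c p)] fun _ => f p := by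
    have h2 : Filter.Tendsto c.symm (𝓝 (c p)) (𝓝 p) := by
      have h3 := c.continuousAt_symm (c.map_source hpc)
      rw [ContinuousAt, c.left_inv hpc] at h3
      exact h3
    exact h2.eventually (hf.eventually_eq p)
  rw [h1.fderiv_eq]
  have h4 : fderiv ℝ (fun _ : EE N => f p) (c p) = 0 := by simp
  rw [h4]
  simp

theorem p_NK0 (hVOL : Stmt_VOL) : Stmt_NK0 := by
  intro n M _ _ _ _ _ _ _ Ω vol hΩ hvol hfin h1 x hx
  haveI : IsFiniteMeasure vol := ⟨hfin⟩
  haveI : LocallyConnectedSpace M := ChartedSpace.locallyConnectedSpace (EE (2 * n)) M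
  have hop : IsOpen (connectedComponent x) := isOpen_connectedComponent
  have hcl : IsClosed (connectedComponent x) := isClosed_connectedComponent
  have hlc : IsLocallyConstant ((connectedComponent x).indicator (fun _ => (1 : ℝ))) := by
    refine IsLocallyConstant.iff_eventually_eq _ |>.2 fun y => ?_
    by_cases hy : y ∈ connectedComponent x
    · filter_upwards [hop.mem_nhds hy] with z hz
      rw [indicator_of_mem hz, indicator_of_mem hy]
    · filter_upwards [hcl.isOpen_compl.mem_nhds hy] with z hz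
      rw [indicator_of_notMem hz, indicator_of_notMem hy]
  obtain ⟨a1, a2⟩ := NK0_gen (N := 2 * n) Ω _ hlc
    ⟨connectedComponent x, hx, fun p hp => indicator_of_notMem hp _⟩
  obtain ⟨b1, b2⟩ := NK0_gen (N := 2 * n) Ω (fun _ : M => (0 : ℝ)) (IsLocallyConstant.const 0)
    ⟨∅, isCompact_empty, fun _ _ => rfl⟩
  have e2 := h1 _ _ id a1 b1 a2 b2
  have e3 : Cal vol (fun (_ : ℝ) (p : M) => (connectedComponent x).indicator (fun _ => (1 : ℝ)) p) =
      (vol (connectedComponent x)).toReal := by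
    unfold Cal
    rw [intervalIntegral.integral_const, sub_zero, one_smul, integral_indicator hop.measurableSet]
    simp [Measure.real]
  have e4 : Cal vol (fun (_ : ℝ) (_ : M) => (0 : ℝ)) = 0 := by
    simp [Cal]
  have hpos : 0 < vol (connectedComponent x) :=
    (hVOL _ M Ω vol hΩ hvol).1 _ hop ⟨x, mem_connectedComponent⟩
  have h5 : 0 < (vol (connectedComponent x)).toReal := ENNReal.toReal_pos hpos.ne' (measure_ne_top _ _)
  rw [e3, e4] at e2
  exact h5.ne' e2

end HDK
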