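import Pool.Agent.Work.MP_c3bd4f_as.BridgeT
import Pool.Agent.Work.MP_c3bd4f_fq.B_CAG
import Pool.Agent.Work.MP_c3bd4f_fq.B_CCL
import Pool.Agent.Work.MP_c3bd4f_fq.B_CD1
import Pool.Agent.Work.MP_c3bd4f_fq.B_CD2
import Pool.Agent.Work.MP_c3bd4f_fq.B_CDQ
import Pool.Agent.Work.MP_c3bd4f_fq.B_CHM
import Pool.Agent.Work.MP_c3bd4f_fq.B_CIS
import Pool.Agent.Work.MP_c3bd4f_fq.B_CLF
import Pool.Agent.Work.MP_c3bd4f_fq.B_CPR
import Pool.Agent.Work.MP_c3bd4f_fq.B_CSM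
import Pool.Agent.Work.MP_c3bd4f_fq.B_CV1
import Pool.Agent.Work.MP_c3bd4f_fq.B_CV2
import Pool.Agent.Work.MP_c3bd4f_fq.B_NK0

set_option autoImplicit false

/-! # The descent to finite quotients: assembly -/

open scoped ContDiff Manifold Topology
open Set MeasureTheory

noncomputable section

namespace HDK

open HDC

theorem q_CPR : Stmt_CPR := p_CPR
theorem q_CHM : Stmt_CHM := p_CHM q_CPR
theorem q_CLF : Stmt_CLF := p_CLF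
theorem q_CSM : Stmt_CSM := p_CSM
theorem q_CDQ : Stmt_CDQ := p_CDQ
theorem q_CIS : Stmt_CIS := p_CIS HDC.q_PBA q_CDQ q_CSM
theorem q_CAG : Stmt_CAG := p_CAG q_CPR
theorem q_CV1 : Stmt_CV1 := p_CV1 HDC.q_DET q_CDQ
theorem q_CV2 : Stmt_CV2 := p_CV2 q_CV1
theorem q_CCL : Stmt_CCL := p_CCL
theorem q_CD2 : Stmt_CD2 := p_CD2 HDC.q_VOL HDC.q_HOF HDC.q_EXH
theorem q_CD1 : Stmt_CD1 := p_CD1 HDC.q_OFK q_CHM q_CLF q_CIS q_CAG q_CV2 q_CCL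
theorem q_NK0 : Stmt_NK0 := p_NK0 HDC.q_VOL

/-- The descent from `(M', q^* Ω)` to `(M, Ω)`. -/
theorem transfer (n d : ℕ) (M M' : Type) [TopologicalSpace M] [T2Space M]
    [SecondCountableTopology M] [Nonempty M] [ChartedSpace (EuclideanSpace ℝ (Fin (2 * n))) M]
    [IsManifold 𝓘(ℝ, EuclideanSpace ℝ (Fin (2 * n))) ∞ M] [MeasurableSpace M] [BorelSpace M]
    [TopologicalSpace M'] [T2Space M'] [SecondCountableTopology M']
    [ChartedSpace (EuclideanSpace ℝ (Fin (2 * n))) M']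
    [IsManifold 𝓘(ℝ, EuclideanSpace ℝ (Fin (2 * n))) ∞ M'] [MeasurableSpace M'] [BorelSpace M']
    (Ω : HDS.Fam (2 * n) M) (Ω' : HDS.Fam (2 * n) M') (hΩ : HDS.IsSymplectic n Ω)
    (hΩ' : HDS.IsSymplectic n Ω') (q : M' → M) (hq : IsCoveringMap q)
    (hqd : IsLocalDiffeomorph 𝓘(ℝ, EuclideanSpace ℝ (Fin (2 * n)))
      𝓘(ℝ, EuclideanSpace ℝ (Fin (2 * n))) ∞ q) (hd : 1 ≤ d)
    (hqc : ∀ x, (q ⁻¹' {x}).ncard = d) (hpb : HDS.IsPull q Ω Ω')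
    (h : HDS.CalabiHofer n Ω') : HDS.CalabiHofer n Ω := by
  refine HDB.calabiHofer_of n M Ω hΩ fun vol h1 hfin => ?_
  obtain ⟨vol', ⟨hv', -⟩, h2⟩ := h
  have hc : Cvr (2 * n) q d := ⟨hq, hqd, hd, hqc⟩
  have hP : IsPB (N := 2 * n) q Ω Ω' := hpb
  have hfin' : vol' univ < ⊤ := by
    have h3 := q_CV2 n d M' M q Ω Ω' vol vol' hc hP h1 hv' univ MeasurableSet.univ
    rw [preimage_univ] at h3
    rw [h3]
    exact ENNReal.mul_lt_top (ENNReal.natCast_lt_top d) hfin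
  obtain ⟨g1, -, -⟩ := h2 hfin'
  have g1' : ∀ (H H' : ℝ → M' → ℝ) (φ : M' → M'), HDC.IsHam (2 * n) H → HDC.IsHam (2 * n) H' →
      HDC.Generates (N := 2 * n) Ω' H φ → HDC.Generates (N := 2 * n) Ω' H' φ →
      HDC.Cal vol' H = HDC.Cal vol' H' := fun H H' φ hH hH' hg hg' =>
    g1 H H' φ ((HDB.ham_iff H).2 hH) ((HDB.ham_iff H').2 hH')
      ((HDB.gen_iff hΩ'.form H φ).2 hg) ((HDB.gen_iff hΩ'.form H' φ).2 hg')
  have hnk : NoK M' := q_NK0 n M' Ω' vol' (HDB.symp_of hΩ') hv' hfin' g1'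
  exact q_CD2 n M Ω vol (HDB.symp_of hΩ) h1 hfin
    (q_CD1 n d M' M q Ω Ω' vol vol' hc hP hnk (HDB.symp_of hΩ) h1 hv' g1')

end HDK
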