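import Pool.Agent.Work.MP_c3bd4f_fq.Interface

set_option autoImplicit false

open scoped ContDiff Manifold Topology
open Set MeasureTheory

noncomputable section

namespace HDK

open HDC

theorem p_CSM : Stmt_CSM := by
  intro N d M' M _ _ _ _ _ _ q Φ Ψ hq hΦ hL
  rintro ⟨t0, e0⟩ hte
  have ht0 : t0 ∈ Icc (0 : ℝ) 1 := hte.1
  obtain ⟨h, hsrc, heq⟩ := hq.loc (Ψ t0 e0)
  have hqsm : ContMDiff 𝓘(ℝ, EE N) 𝓘(ℝ, EE N) ∞ q := hq.loc.contMDiff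
  have hpair : ContMDiff (𝓘(ℝ, ℝ).prod 𝓘(ℝ, EE N)) (𝓘(ℝ, ℝ).prod 𝓘(ℝ, EE N)) ∞
      (fun p : ℝ × M' => ((p.1, q p.2) : ℝ × M)) :=
    contMDiff_fst.prodMk (hqsm.comp contMDiff_snd)
  have hcomp : ContMDiffOn (𝓘(ℝ, ℝ).prod 𝓘(ℝ, EE N)) 𝓘(ℝ, EE N) ∞
      (fun p : ℝ × M' => Φ p.1 (q p.2)) (Icc 0 1 ×ˢ univ) := by
    have h1 := ContMDiffOn.comp (t := Icc (0 : ℝ) 1 ×ˢ (univ : Set M)) hΦ (hpair.contMDiffOn (s := Icc (0 : ℝ) 1 ×ˢ (univ : Set M')))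
      (fun p hp => ⟨hp.1, mem_univ _⟩)
    exact h1
  have hpt : Φ t0 (q e0) = h (Ψ t0 e0) := by
    rw [← hL.pr t0 ht0 e0]
    exact heq hsrc
  have htgt : Φ t0 (q e0) ∈ h.target := by
    rw [hpt]
    exact h.map_source hsrc
  have hinv : ContMDiffAt 𝓘(ℝ, EE N) 𝓘(ℝ, EE N) ∞ h.invFun (Φ t0 (q e0)) :=
    h.contMDiffOn_invFun.contMDiffAt (h.open_target.mem_nhds htgt)
  have hmain : ContMDiffWithinAt (𝓘(ℝ, ℝ).prod 𝓘(ℝ, EE N)) 𝓘(ℝ, EE N) ∞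
      (fun p : ℝ × M' => h.invFun (Φ p.1 (q p.2))) (Icc 0 1 ×ˢ univ) (t0, e0) := by
    have h1 : ContMDiffWithinAt (𝓘(ℝ, ℝ).prod 𝓘(ℝ, EE N)) 𝓘(ℝ, EE N) ∞
      (fun p : ℝ × M' => Φ p.1 (q p.2)) (Icc 0 1 ×ˢ univ) (t0, e0) := hcomp (t0, e0) hte
    exact ContMDiffAt.comp_contMDiffWithinAt (x := ((t0, e0) : ℝ × M')) hinv h1
  have hfor : ∀ p : ℝ × M', p ∈ Icc (0 : ℝ) 1 ×ˢ (univ : Set M') → Ψ p.1 p.2 ∈ h.source →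
      Ψ p.1 p.2 = h.invFun (Φ p.1 (q p.2)) := by
    intro p hp hps
    rw [← hL.pr p.1 hp.1 p.2]
    have h2 : q (Ψ p.1 p.2) = h (Ψ p.1 p.2) := heq hps
    rw [h2]
    exact (h.left_inv hps).symm
  have hct : ContinuousWithinAt (fun p : ℝ × M' => Ψ p.1 p.2) (Icc (0 : ℝ) 1 ×ˢ (univ : Set M')) (t0, e0) :=
    hL.ct (t0, e0) hte
  have hev : ∀ᶠ p in 𝓝[Icc (0 : ℝ) 1 ×ˢ (univ : Set M')] (t0, e0), Ψ p.1 p.2 ∈ h.source :=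
    hct.eventually (h.open_source.mem_nhds hsrc)
  refine hmain.congr_of_eventuallyEq ?_ (hfor (t0, e0) hte hsrc)
  filter_upwards [hev, self_mem_nhdsWithin] with p h1 h2
  exact hfor p h2 h1

end HDK
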