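import Pool.Agent.Work.MP_c3bd4f_hd.Interface

set_option autoImplicit false

/-!
# MP_c3bd4f_gt: the Calabi invariant and the Hofer diameter of quotients. Definitions and block statements.

`q : M' → M` is a smooth covering map of degree `d`, `Ω' = q^* Ω`.  If the Calabi invariant descends to `Ham_c(M', Ω')` and no component of `M'` is
compact, then the Calabi invariant descends to `Ham_c(M, Ω)`, and the Hofer diameter of `Ham_c(M, Ω)` is infinite (if the volume is finite).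

The file of block `X` is `Pool/Agent/Work/MP_c3bd4f_fq/B_X.lean`: import this file, `open scoped ContDiff Manifold Topology`, `open Set MeasureTheory`,
`noncomputable section`, `namespace HDK`, `open HDC`, auxiliary lemmas with prefix `X_`, `theorem p_X (hA : Stmt_A) .. : Stmt_X` with the blocks of the column
`uses` as hypotheses.  Names of library statements (`Pool/Agent/Work/MP_c3bd4f_hd/Interface.lean`, already proved): PBA, DET, DNC, VOL, HOF, EXH, OFK, PHL, CNT.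
-/

open scoped ContDiff Manifold Topology
open Set MeasureTheory

noncomputable section

namespace HDK

open HDC

/-- No component of `M` is compact. -/
def NoK (M : Type) [TopologicalSpace M] : Prop := ∀ x : M, ¬ IsCompact (connectedComponent x)

/-- `q` is a smooth covering map of degree `d`. -/
structure Cvr (N : ℕ) {M' M : Type} [TopologicalSpace M'] [ChartedSpace (EE N) M'] [TopologicalSpace M] [ChartedSpace (EE N) M]
    (q : M' → M) (d : ℕ) : Prop where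
  cov : IsCoveringMap q
  loc : IsLocalDiffeomorph 𝓘(ℝ, EE N) 𝓘(ℝ, EE N) ∞ q
  pos : 1 ≤ d
  card : ∀ x, (q ⁻¹' {x}).ncard = d

/-- `Ω' = q^* Ω`. -/
def IsPB {N : ℕ} {M' M : Type} [TopologicalSpace M'] [ChartedSpace (EE N) M'] [TopologicalSpace M] [ChartedSpace (EE N) M]
    (q : M' → M) (Ω : Fam N M) (Ω' : Fam N M') : Prop :=
  ∀ c ∈ atlas (EE N) M', ∀ c' ∈ atlas (EE N) M, ∀ x ∈ c.target, q (c.symm x) ∈ c'.source →
    Ω' c x = pb (fderiv ℝ (fun y => c' (q (c.symm y))) x) (Ω c' (c' (q (c.symm x))))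

/-- `Ψ` is a lift of `Φ`. -/
structure Lif {M' M : Type} [TopologicalSpace M'] [TopologicalSpace M] (q : M' → M) (Φ : ℝ → M → M) (Ψ : ℝ → M' → M') : Prop where
  ct : ContinuousOn (fun p : ℝ × M' => Ψ p.1 p.2) (Icc 0 1 ×ˢ univ)
  zero : ∀ e, Ψ 0 e = e
  pr : ∀ t ∈ Icc (0 : ℝ) 1, ∀ e, q (Ψ t e) = Φ t (q e)

/-- BLOCK CPR (uses nothing): `q` is proper.  PROOF.  Each `x ∈ K` has an open neighbourhood `U` and a trivialization `e` over `U` with the fibre `I = q ⁻¹' {x}`, discrete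
(`IsCoveringMap`, `IsEvenlyCovered`), finite (`card`, `pos`: `Set.finite_of_ncard_pos`).  `M` is locally compact (`ChartedSpace.locallyCompactSpace (EE N) M`): a compact
neighbourhood `C ⊆ U` of `x`; `q ⁻¹' C = e.symm '' (C ×ˢ univ)` is compact.  Finitely many such `C` cover `K` (`IsCompact.elim_nhds_subcover`), `q ⁻¹' K` is
closed in the compact union. -/
def Stmt_CPR : Prop := ∀ (N d : ℕ) (M' M : Type) [TopologicalSpace M'] [T2Space M'] [ChartedSpace (EE N) M'] [TopologicalSpace M] [T2Space M]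
  [ChartedSpace (EE N) M] (q : M' → M), Cvr N q d → ∀ K : Set M, IsCompact K → IsCompact (q ⁻¹' K)

/-- BLOCK CHM (uses CPR): `H ∘ q` is a Hamiltonian with compact support.  PROOF.  `(t, p) ↦ H t (q p)` is the composition of a `ContMDiffOn` function with `id × q` (`q` is
`ContMDiff`: `IsLocalDiffeomorph.contMDiff`); support in `q ⁻¹' K`. -/
def Stmt_CHM : Prop := ∀ (N d : ℕ) (M' M : Type) [TopologicalSpace M'] [T2Space M'] [ChartedSpace (EE N) M'] [TopologicalSpace M] [T2Space M]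
  [ChartedSpace (EE N) M] (q : M' → M) (H : ℝ → M → ℝ), Cvr N q d → IsHam N H → IsHam N (fun t p => H t (q p))

/-- BLOCK CLF (uses nothing): the lift of an isotopy.  PROOF.  As `Pool/Agent/Work/MP_c3bd4f_as/B_LFT.lean` (there for coverings with a group; here only `IsCoveringMap`):
`H : C(unitInterval × M', M)`, `H (t, e) = Φ t (q e)`; `L = cov.liftHomotopy H (ContinuousMap.id M') _`; `Ψ t e = L (projIcc 0 1 _ t, e)`.
The last claim: for fixed `e` the curve `t ↦ L (t, e)` and the constant curve `e` have the same projection and agree at `0` (`cov.eq_of_comp_eq`). -/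
def Stmt_CLF : Prop := ∀ (M' M : Type) [TopologicalSpace M'] [TopologicalSpace M] (q : M' → M) (Φ : ℝ → M → M), IsCoveringMap q →
  ContinuousOn (fun p : ℝ × M => Φ p.1 p.2) (Icc 0 1 ×ˢ univ) → (∀ p, Φ 0 p = p) →
  ∃ Ψ : ℝ → M' → M', Lif q Φ Ψ ∧ ∀ e, (∀ t ∈ Icc (0 : ℝ) 1, Φ t (q e) = q e) → ∀ t ∈ Icc (0 : ℝ) 1, Ψ t e = e

/-- BLOCK CSM (uses nothing): the lift is smooth.  PROOF.  At `(t0, e0)` let `g` be a smooth local inverse of `q` near `Ψ t0 e0` (`IsLocalDiffeomorph`: a partial diffeomorphism `h` with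
`Ψ t0 e0 ∈ h.source`, `q = h` there; `g = h.symm`).  For `(t, e)` near `(t0, e0)` in `Icc 0 1 ×ˢ univ`, `Ψ t e ∈ h.source` (continuity), so
`Ψ t e = g (q (Ψ t e)) = g (Φ t (q e))`: a composition of smooth maps (`ContMDiffWithinAt.congr_of_eventuallyEq`). -/
def Stmt_CSM : Prop := ∀ (N d : ℕ) (M' M : Type) [TopologicalSpace M'] [ChartedSpace (EE N) M'] [TopologicalSpace M] [ChartedSpace (EE N) M]
  [IsManifold 𝓘(ℝ, EE N) ∞ M'] [IsManifold 𝓘(ℝ, EE N) ∞ M] (q : M' → M) (Φ : ℝ → M → M) (Ψ : ℝ → M' → M'), Cvr N q d → SmI N Φ → Lif q Φ Ψ → SmI N Ψ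

/-- BLOCK CDQ (uses nothing): the local expressions of `q`.  PROOF.  `c' ∘ q ∘ c.symm` is smooth on the open set (`contMDiffOn_of_mem_maximalAtlas`, `contMDiffOn_symm_of_mem_maximalAtlas`,
`IsLocalDiffeomorph.contMDiff`, `contMDiffOn_iff_contDiffOn`). -/
def Stmt_CDQ : Prop := ∀ (N d : ℕ) (M' M : Type) [TopologicalSpace M'] [ChartedSpace (EE N) M'] [TopologicalSpace M] [ChartedSpace (EE N) M]
  [IsManifold 𝓘(ℝ, EE N) ∞ M'] [IsManifold 𝓘(ℝ, EE N) ∞ M] (q : M' → M), Cvr N q d →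
  ∀ c ∈ atlas (EE N) M', ∀ c' ∈ atlas (EE N) M,
    IsOpen {x | x ∈ c.target ∧ q (c.symm x) ∈ c'.source} ∧
    ContDiffOn ℝ ∞ (fun y => c' (q (c.symm y))) {x | x ∈ c.target ∧ q (c.symm x) ∈ c'.source}

/-- BLOCK CIS (uses PBA, CDQ, CSM): the lift is the isotopy of `H ∘ q`.  PROOF.  `ode` at `t`, `e`, `c` with `Ψ t e ∈ c.source`: `x = c (Ψ t e)`, `c' = chartAt (q (Ψ t e))`,
`A = fderiv (c' ∘ q ∘ c.symm) x`.  `s ↦ c (Ψ s e)` has a derivative `v` within `Icc 0 1` at `t` (`Ψ` smooth; chart smooth), and near `t` `c' (Φ s (q e)) = (c' ∘ q ∘ c.symm) (c (Ψ s e))`, so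
its derivative is `A v` (uniqueness of derivatives within `Icc 0 1`: `uniqueDiffOn_Icc_zero_one`), equal to the `v'` of `IsIso.ode` for `Φ` at `q e`.  Then
`ctr v (Ω' c x) = ctr v (pb A (Ω c' ..)) = pb A (ctr (A v) ..) = pb A (io (fderiv (H t ∘ c'.symm) ..)) = io (fderiv (H t ∘ c'.symm) .. ∘ A)` (PBA (4), (1)) and
`H t ∘ q ∘ c.symm = (H t ∘ c'.symm) ∘ (c' ∘ q ∘ c.symm)` near `x` (chain rule; `H t ∘ c'.symm` is differentiable by `IsHam`). -/
def Stmt_CIS : Prop := ∀ (N d : ℕ) (M' M : Type) [TopologicalSpace M'] [ChartedSpace (EE N) M'] [TopologicalSpace M] [ChartedSpace (EE N) M]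
  [IsManifold 𝓘(ℝ, EE N) ∞ M'] [IsManifold 𝓘(ℝ, EE N) ∞ M] (q : M' → M) (Ω : Fam N M) (Ω' : Fam N M') (H : ℝ → M → ℝ) (Φ : ℝ → M → M)
  (Ψ : ℝ → M' → M'), Cvr N q d → IsPB q Ω Ω' → IsHam N H → IsIso Ω H Φ → Lif q Φ Ψ → IsIso Ω' (fun t p => H t (q p)) Ψ

/-- BLOCK CAG (uses CPR): two lifts agree at time one.  PROOF.  `e : M'`; the component `S` of `e` is closed and not contained in the compact set `q ⁻¹' K` (`NoK`), so there is
`e1 ∈ S` with `q e1 ∉ K`, `Ψ 1 e1 = e1 = Ψ' 1 e1`.  `Ψ 1`, `Ψ' 1` are continuous and `q ∘ Ψ 1 = φ ∘ q = q ∘ Ψ' 1`: `IsCoveringMap.eqOn_of_comp_eqOn` on the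
preconnected set `S`. -/
def Stmt_CAG : Prop := ∀ (N d : ℕ) (M' M : Type) [TopologicalSpace M'] [T2Space M'] [ChartedSpace (EE N) M'] [TopologicalSpace M] [T2Space M]
  [ChartedSpace (EE N) M] (q : M' → M) (K : Set M) (Φ Φ' : ℝ → M → M) (Ψ Ψ' : ℝ → M' → M'), Cvr N q d → NoK M' → IsCompact K →
  Lif q Φ Ψ → Lif q Φ' Ψ' → Φ 1 = Φ' 1 → (∀ e, q e ∉ K → Ψ 1 e = e ∧ Ψ' 1 e = e) → Ψ 1 = Ψ' 1

/-- BLOCK CV1 (uses DET, CDQ): `q` preserves the volume locally.  PROOF.  `c = chartAt e`, `c' = chartAt (q e)`, `h` a partial homeomorphism with `e ∈ h.source`, `q = h` on `h.source`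
(`cov.isLocalHomeomorph`), `W = h.source ∩ c.source ∩ q ⁻¹' c'.source`.  `A ⊆ W` measurable, `S = c '' A = c.target ∩ c.symm ⁻¹' A` measurable, `A = c.symm '' S`,
`T = c' ∘ q ∘ c.symm` injective on `S`, `q '' A = c'.symm '' (T '' S)`.  `vol' A = ∫⁻ x in S, |top (Ω' c x ^ n)|`, `Ω' c x ^ n = pb T' (Ω c' (T x) ^ n)`, DET:
`= ∫⁻ x in S, |det T'| |top (Ω c' (T x) ^ n)| = ∫⁻ y in T '' S, |top (Ω c' y ^ n)|` (`lintegral_image_eq_lintegral_abs_det_fderiv_mul`) `= vol (q '' A)`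
(`T '' S` measurable: `MeasureTheory.measurable_image_of_fderivWithin` or `T` is the restriction of an open partial homeomorphism).  Compare the change of variables in
`Pool/Agent/Work/MP_c3bd4f_hd/B_EXV.lean`. -/
def Stmt_CV1 : Prop := ∀ (n d : ℕ) (M' M : Type) [TopologicalSpace M'] [ChartedSpace (EE (2 * n)) M'] [TopologicalSpace M] [ChartedSpace (EE (2 * n)) M]
  [IsManifold 𝓘(ℝ, EE (2 * n)) ∞ M'] [IsManifold 𝓘(ℝ, EE (2 * n)) ∞ M] [MeasurableSpace M'] [BorelSpace M'] [MeasurableSpace M] [BorelSpace M]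
  (q : M' → M) (Ω : Fam (2 * n) M) (Ω' : Fam (2 * n) M') (vol : Measure M) (vol' : Measure M'), Cvr (2 * n) q d → IsPB q Ω Ω' →
  IsVol n Ω vol → IsVol n Ω' vol' → ∀ e : M', ∃ W : Set M', IsOpen W ∧ e ∈ W ∧ InjOn q W ∧ ∀ A ⊆ W, MeasurableSet A → vol' A = vol (q '' A)

/-- BLOCK CV2 (uses CV1): `q_* vol' = d vol`.  PROOF.  Countably many `W k` as in CV1 cover `M'` (Lindelöf: `TopologicalSpace.countable_cover_nhds`); `D k = disjointed W k`, measurable, disjoint, union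
`univ`.  `q '' (D k) = q '' (W k) \ q '' (W k ∩ ⋃ l < k, W l)` (`InjOn`) is measurable (`q` is an open map).  For measurable `B`: `vol' (q ⁻¹' B) = ∑' k, vol' (q ⁻¹' B ∩ D k) =
∑' k, vol (B ∩ q '' D k) = ∑' k, ∫⁻ x in B, indicator (q '' D k) 1 x = ∫⁻ x in B, ∑' k, .. = ∫⁻ x in B, d = d * vol B`, because for each `x` the map `e ↦ k` with `e ∈ D k` is a
bijection from the fibre of `x` to `{k | x ∈ q '' D k}` (`D k ⊆ W k`, `InjOn`). -/
def Stmt_CV2 : Prop := ∀ (n d : ℕ) (M' M : Type) [TopologicalSpace M'] [SecondCountableTopology M'] [ChartedSpace (EE (2 * n)) M'] [TopologicalSpace M]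
  [ChartedSpace (EE (2 * n)) M] [IsManifold 𝓘(ℝ, EE (2 * n)) ∞ M'] [IsManifold 𝓘(ℝ, EE (2 * n)) ∞ M] [MeasurableSpace M'] [BorelSpace M']
  [MeasurableSpace M] [BorelSpace M] (q : M' → M) (Ω : Fam (2 * n) M) (Ω' : Fam (2 * n) M') (vol : Measure M) (vol' : Measure M'),
  Cvr (2 * n) q d → IsPB q Ω Ω' → IsVol n Ω vol → IsVol n Ω' vol' → ∀ B : Set M, MeasurableSet B → vol' (q ⁻¹' B) = d * vol B

/-- BLOCK CCL (uses nothing): the Calabi invariant of `H ∘ q`.  PROOF.  `vol'.map q = (d : ℝ≥0∞) • vol` (`Measure.ext`, `Measure.map_apply`), for `t ∈ Icc 0 1` `H t` is continuous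
(`IsHam.smooth`), `integral_map`, `integral_smul_measure`; `intervalIntegral.integral_congr`, `integral_const_mul`. -/
def Stmt_CCL : Prop := ∀ (N d : ℕ) (M' M : Type) [TopologicalSpace M'] [TopologicalSpace M] [ChartedSpace (EE N) M] [MeasurableSpace M'] [BorelSpace M']
  [MeasurableSpace M] [BorelSpace M] (q : M' → M) (vol : Measure M) (vol' : Measure M') (H : ℝ → M → ℝ), Continuous q → IsHam N H →
  (∀ B : Set M, MeasurableSet B → vol' (q ⁻¹' B) = d * vol B) → Cal vol' (fun t p => H t (q p)) = d * Cal vol H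

/-- BLOCK CD2 (uses VOL, HOF, EXH): the conclusion from the descent of the Calabi invariant.  PROOF.  `M` is not compact: otherwise `H = 1` (compact support `univ`) and `H = 0` both generate
`id` (as `Pool/Agent/Work/MP_c3bd4f_hd/B_NCP.lean`), so `(vol univ).toReal = 0`, against VOL (1).  The rest is `Pool/Agent/Work/MP_c3bd4f_hd/B_FIN.lean` with `h1` in place of CAL. -/
def Stmt_CD2 : Prop := ∀ (n : ℕ) (M : Type) [TopologicalSpace M] [T2Space M] [SecondCountableTopology M] [Nonempty M]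
  [ChartedSpace (EE (2 * n)) M] [IsManifold 𝓘(ℝ, EE (2 * n)) ∞ M] [MeasurableSpace M] [BorelSpace M] (Ω : Fam (2 * n) M) (vol : Measure M),
  IsSymplectic n Ω → IsVol n Ω vol → vol univ < ⊤ →
  (∀ (H H' : ℝ → M → ℝ) (φ : M → M), IsHam (2 * n) H → IsHam (2 * n) H' → Generates Ω H φ → Generates Ω H' φ → Cal vol H = Cal vol H') →
  (∀ (H H' : ℝ → M → ℝ) (φ : M → M), IsHam (2 * n) H → IsHam (2 * n) H' → Generates Ω H φ → Generates Ω H' φ → Cal vol H = Cal vol H') ∧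
  (∀ (H : ℝ → M → ℝ) (φ : M → M), IsHam (2 * n) H → Generates Ω H φ → |Cal vol H| ≤ (vol univ).toReal * hofer Ω φ) ∧
  ∀ C : ℝ, ∃ φ ∈ Ham Ω, C ≤ hofer Ω φ

/-- BLOCK CD1 (uses OFK, CHM, CLF, CIS, CAG, CV2, CCL): descent of the descent.  PROOF.  `Φ`, `Φ1` the isotopies of `H`, `H1`; `K` the union of the supports; OFK (1) (with `HS`): both are
the identity off `K`.  Lifts `Ψ`, `Ψ1` (CLF) are the isotopies of `H ∘ q`, `H1 ∘ q` (CIS), the identity at `e` if `q e ∉ K`, so they agree at time one (CAG).  By hypothesis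
`Cal vol' (H ∘ q) = Cal vol' (H1 ∘ q)` (CHM); CCL (with CV2) and `d ≠ 0`. -/
def Stmt_CD1 : Prop := ∀ (n d : ℕ) (M' M : Type) [TopologicalSpace M'] [T2Space M'] [SecondCountableTopology M'] [ChartedSpace (EE (2 * n)) M']
  [IsManifold 𝓘(ℝ, EE (2 * n)) ∞ M'] [MeasurableSpace M'] [BorelSpace M'] [TopologicalSpace M] [T2Space M] [SecondCountableTopology M]
  [ChartedSpace (EE (2 * n)) M] [IsManifold 𝓘(ℝ, EE (2 * n)) ∞ M] [MeasurableSpace M] [BorelSpace M]
  (q : M' → M) (Ω : Fam (2 * n) M) (Ω' : Fam (2 * n) M') (vol : Measure M) (vol' : Measure M'), Cvr (2 * n) q d → IsPB q Ω Ω' → NoK M' →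
  IsSymplectic n Ω → IsVol n Ω vol → IsVol n Ω' vol' →
  (∀ (H H' : ℝ → M' → ℝ) (φ : M' → M'), IsHam (2 * n) H → IsHam (2 * n) H' → Generates Ω' H φ → Generates Ω' H' φ → Cal vol' H = Cal vol' H') →
  ∀ (H H' : ℝ → M → ℝ) (φ : M → M), IsHam (2 * n) H → IsHam (2 * n) H' → Generates Ω H φ → Generates Ω H' φ → Cal vol H = Cal vol H'

end HDK
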